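import Pool.Agent.MUP.ASM

/-!
MP_d531b0_an.  Let `A` be a sigma-unital purely infinite C*-algebra.  Positive elements `x` of the
multiplier algebra `𝓜(ℂ, A)` whose ideal is compact modulo `A` (see the statement) are properly
infinite; in particular projections, elements which are projections modulo `A`, and elements which
are full modulo `A`.
-/

open MultiplierAlgebra MUP

namespace Pool.Agent.Results.MP_d531b0_an.CompactModuloA

/-- Let `A` be a sigma-unital purely infinite C*-algebra and let `x ≥ 0` in the multiplier algebra.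
(1) If for every `ε > 0` there are `z ≥ 0` in the hereditary subalgebra of `x` and `δ > 0` such
that `z` lies in the closure of the ideal generated by `(z - δ)_+` plus `A`, and `(x - ε)_+` lies
in the closure of the ideal generated by `z` plus `A`, then `x ⊕ 0 ∼ x ⊕ x`.
(2) This holds if `x ^ 2 - x ∈ A`, (3) and if `x` is full modulo `A`. -/
theorem result (A : Type*) [NonUnitalCStarAlgebra A] (hσ : SigmaUnital A)
    (hA : PurelyInfinite A) :
    (∀ x : 𝓜(ℂ, A), IsPos x →
      (∀ ε : ℝ, 0 < ε → ∃ (z : 𝓜(ℂ, A)) (δ : ℝ), IsPos z ∧ 0 < δ ∧ InHer x z ∧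
        InIdealK (rangeA A) (pp z δ) z ∧ InIdealK (rangeA A) z (pp x ε)) → PropInf x) ∧
    (∀ x : 𝓜(ℂ, A), IsPos x → x * x - x ∈ rangeA A → PropInf x) ∧
    (∀ x : 𝓜(ℂ, A), IsPos x → InIdealK (rangeA A) x 1 → PropInf x) := by
  let _ : PartialOrder 𝓜(ℂ, A) := CStarAlgebra.spectralOrder _
  have _ : StarOrderedRing 𝓜(ℂ, A) := CStarAlgebra.spectralOrderedRing _
  exact assembled hσ hA

end Pool.Agent.Results.MP_d531b0_an.CompactModuloA
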